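import Pool.Agent.P.MP_9f4f5e_mp.Gauss

namespace Pool.Agent.Results.MP_9f4f5e_mp.BelowSemiclassical

open Real MeasureTheory
open scoped FourierTransform
open Pool.Agent.P.MP_9f4f5e_mp

theorem result :
    ∃ ψ : EuclideanSpace ℝ (Fin 3) → ℂ,
      Continuous ψ ∧ Integrable ψ ∧ MemLp ψ 2 ∧ ∫ x, ‖ψ x‖ ^ 2 = 1 ∧
      Integrable (fun ξ : EuclideanSpace ℝ (Fin 3) => 2 * π * ‖ξ‖ * ‖𝓕 ψ ξ‖ ^ 2) ∧
      Integrable (fun x => (‖ψ x‖ ^ 2) ^ ((4 : ℝ) / 3)) ∧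
      0 < ∫ x, (‖ψ x‖ ^ 2) ^ ((4 : ℝ) / 3) ∧
      ∫ ξ : EuclideanSpace ℝ (Fin 3), 2 * π * ‖ξ‖ * ‖𝓕 ψ ξ‖ ^ 2
        ≤ 0.99856 * (3 / 4 * (6 * π ^ 2) ^ ((1 : ℝ) / 3)) * ∫ x, (‖ψ x‖ ^ 2) ^ ((4 : ℝ) / 3) := by
  obtain ⟨hn1, hn2⟩ := sq_int p3 p3_pos
  obtain ⟨hi1, hi2⟩ := sq_int p4 p4_pos
  obtain ⟨hk1, hk2⟩ := kin_int p3 p3_pos
  have hkey := key_real
  have h3 := val3_pos
  have h4 := val4_pos
  have ht := val2_nonneg fT p3 p3
  generalize val2 fN p3 p3 = ν at *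
  generalize val2 fN p4 p4 = ι at *
  generalize val2 fT p3 p3 = τ at *
  have hπ := pi_pos
  have hsπ : 0 < √π := Real.sqrt_pos.2 hπ
  set n : ℝ := π * √π * ν with hn
  have hn0 : 0 < n := by positivity
  set k : ℝ := (√n)⁻¹ with hk
  have hk0 : 0 < k := by have := Real.sqrt_pos.2 hn0; positivity
  have hkk : k ^ 2 = n⁻¹ := by rw [hk, inv_pow, Real.sq_sqrt hn0.le]
  have hnorm : ∀ x : E, ‖(k : ℂ) * ((ev p3 (‖x‖ ^ 2) : ℝ) : ℂ)‖ ^ 2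
      = n⁻¹ * ev p3 (‖x‖ ^ 2) ^ 2 := by
    intro x
    rw [norm_mul, mul_pow, Complex.norm_real, Complex.norm_real, Real.norm_eq_abs,
      Real.norm_eq_abs, sq_abs, sq_abs, hkk]
  have hrho : ∀ x : E, (‖(k : ℂ) * ((ev p3 (‖x‖ ^ 2) : ℝ) : ℂ)‖ ^ 2) ^ ((4 : ℝ) / 3)
      = n⁻¹ ^ ((4 : ℝ) / 3) * ev p4 (‖x‖ ^ 2) ^ 2 := by
    intro x
    rw [hnorm, Real.mul_rpow (by positivity) (by positivity), ev_p3, ev_p4, ← pow_mul, ← pow_mul,
      ← Real.rpow_natCast _ (3 * 2), ← Real.rpow_mul (ev_nonneg _ _), ← Real.rpow_natCast _ (4 * 2)]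
    norm_num
  have hfour : ∀ ξ : E, 2 * π * ‖ξ‖ *
      ‖𝓕 (fun x : E => (k : ℂ) * ((ev p3 (‖x‖ ^ 2) : ℝ) : ℂ)) ξ‖ ^ 2
      = (2 * π * n⁻¹) * (‖ξ‖ * fv p3 (‖ξ‖ ^ 2) ^ 2) := by
    intro ξ
    rw [fourier_cmul, fourier_ev p3 p3_pos, norm_mul, mul_pow, Complex.norm_real,
      Complex.norm_real, Real.norm_eq_abs, Real.norm_eq_abs, sq_abs, sq_abs, hkk]
    ring
  have hcont : Continuous fun x : E => (k : ℂ) * ((ev p3 (‖x‖ ^ 2) : ℝ) : ℂ) := by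
    refine continuous_const.mul (Complex.continuous_ofReal.comp ?_)
    unfold ev
    exact continuous_list_sum _ fun t _ => by fun_prop
  refine ⟨fun x => (k : ℂ) * ((ev p3 (‖x‖ ^ 2) : ℝ) : ℂ), hcont,
    (evC_integrable p3 p3_pos).const_mul _, ?_, ?_, ?_, ?_, ?_, ?_⟩
  · rw [memLp_two_iff_integrable_sq_norm hcont.aestronglyMeasurable]
    simp_rw [hnorm]
    exact hn1.const_mul _
  · simp_rw [hnorm]
    rw [integral_const_mul, hn2, inv_mul_cancel₀ hn0.ne']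
  · simp_rw [hfour]
    exact hk1.const_mul _
  · simp_rw [hrho]
    exact hi1.const_mul _
  · simp_rw [hrho]
    rw [integral_const_mul, hi2]
    positivity
  · simp_rw [hrho, hfour]
    rw [integral_const_mul, integral_const_mul, hi2, hk2]
    set m : ℝ := n⁻¹ ^ ((1 : ℝ) / 3) with hm
    have hm0 : 0 < m := by positivity
    have hm3 : m ^ 3 = n⁻¹ := by
      rw [hm, ← Real.rpow_natCast, ← Real.rpow_mul (by positivity)]; norm_num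
    have hm4 : n⁻¹ ^ ((4 : ℝ) / 3) = n⁻¹ * m := by
      rw [hm, show (4 : ℝ) / 3 = 1 + 1 / 3 by norm_num, Real.rpow_add (by positivity),
        Real.rpow_one]
    set c : ℝ := (6 * π ^ 2) ^ ((1 : ℝ) / 3) with hc
    have hc0 : 0 < c := by positivity
    have hc3 : c ^ 3 = 6 * π ^ 2 := by
      rw [hc, ← Real.rpow_natCast, ← Real.rpow_mul (by positivity)]; norm_num
    have hcc : (2.9191 : ℝ) ≤ 0.99856 * (3 / 4 * c) := by
      apply le_of_pow_le_pow_left₀ (n := 3) (by norm_num) (by positivity)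
      rw [mul_pow, mul_pow, hc3]
      have h := Real.pi_gt_d6
      nlinarith
    have hmain : 4 * π * τ ≤ 2.9191 * (m * (π * √π * ι)) := by
      apply le_of_pow_le_pow_left₀ (n := 3) (by norm_num) (by positivity)
      have h5 : √π ^ 2 = π := Real.sq_sqrt hπ.le
      have h6 : (2.9191 * (m * (π * √π * ι))) ^ 3 = π ^ 3 * (2.9191 ^ 3 * ι ^ 3) / ν := by
        rw [mul_pow, mul_pow, hm3, hn]
        field_simp
        rw [h5]
      rw [h6, le_div_iff₀ h3]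
      calc (4 * π * τ) ^ 3 * ν = π ^ 3 * (64 * τ ^ 3 * ν) := by ring
        _ ≤ _ := by gcongr
    rw [hm4]
    calc 2 * π * n⁻¹ * (2 * τ) = n⁻¹ * (4 * π * τ) := by ring
      _ ≤ n⁻¹ * (2.9191 * (m * (π * √π * ι))) := by gcongr
      _ ≤ n⁻¹ * ((0.99856 * (3 / 4 * c)) * (m * (π * √π * ι))) := by gcongr
      _ = _ := by ring

end Pool.Agent.Results.MP_9f4f5e_mp.BelowSemiclassical
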