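import Pool.Agent.K.MP_9f4f5e_mp.C5
import Pool.Agent.P.MP_9f4f5e_mp.LT.Stmt

open MeasureTheory
open scoped ENNReal
open Pool.Agent.P.MP_9f4f5e_mp.LT

namespace Pool.Agent.Results.MP_9f4f5e_mp.LowerBound

theorem result (n : ℕ) (ψ : L2 (n + 1)) (hanti : Antisym (fn ψ)) (hnorm : ‖ψ‖ = 1) :
    ENNReal.ofReal (0.838 * (3 / 4 * (6 * Real.pi ^ 2) ^ (1 / 3 : ℝ))) *
        ∫⁻ x : E3, dens (fn ψ) x ^ (4 / 3 : ℝ)
      ≤ kinetic (fn (ft ψ)) :=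
  main n ψ hanti hnorm

end Pool.Agent.Results.MP_9f4f5e_mp.LowerBound
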