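import Pool.Agent.K.MP_9f4f5e_mp.C10

namespace Pool.Agent.Results.MP_9f4f5e_mp.SharpAllDim

open Pool.Agent.P.MP_9f4f5e_mp.RL

theorem result (d : ℕ) (m γ : ℝ) (hm : 0 ≤ m) (hγ : 3 ≤ γ) :
    IsLeast {C : ℝ | LiebThirring d m γ C} 1 :=
  sharp d hm hγ

end Pool.Agent.Results.MP_9f4f5e_mp.SharpAllDim
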