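import Pool.Agent.K.MP_9f4f5e_mp.C11

namespace Pool.Agent.Results.MP_9f4f5e_mp.SharpOneDim

open Pool.Agent.P.MP_9f4f5e_mp.LT1

theorem result (γ : ℝ) (hγ : 0 < γ) :
    IsLeast {C : ℝ | LiebThirring γ C} (1 / (Real.pi * (γ + 1))) ↔ 2 ≤ γ := by
  refine ⟨fun h => ?_, fun h => ⟨lt_upper h, fun _ hC => lt_lower hγ hC⟩⟩
  by_contra h2
  rw [not_le] at h2
  rcases lt_trichotomy γ 1 with h1 | rfl | h1
  · exact not_lt_mid (by linarith) (by linarith) (lt_succ hγ h.1)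
  · exact not_lt_one h.1
  · exact not_lt_mid h1 h2 h.1

end Pool.Agent.Results.MP_9f4f5e_mp.SharpOneDim
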